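import Mathlib

/-!
# The lower bound `n / (n - 1)` for the spectrum of the matrix `O` of a coherent configuration
-/

namespace Pool.Agent.Results.MP_d5c33c_co.LowerBound

open Finset

/-- A coherent configuration on the finite set `X` with the set `S` of colors: `color x y` is the
color containing the pair `(x, y)`, and `inter a b c` is the intersection number `p^c_{ab}`. -/
structure CoherentConfiguration (X S : Type*) [Fintype X] [DecidableEq S] where
  color : X → X → S
  nonempty : ∀ a, ∃ x y, color x y = a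
  diagonal : ∀ x y z, color y z = color x x → y = z
  transpose : ∀ x y x' y', color x y = color x' y' → color y x = color y' x'
  inter : S → S → S → ℕ
  inter_spec : ∀ a b x y,
    (univ.filter fun z => color x z = a ∧ color z y = b).card = inter a b (color x y)

variable {X S : Type*} [Fintype X] [DecidableEq S]

namespace CoherentConfiguration

variable (C : CoherentConfiguration X S)

/-- The valency of the color `a`: the number of `y` with `(x, y)` in `a`, where `x` is some point
that has at least one such `y`. -/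
noncomputable def valency (a : S) : ℕ :=
  (univ.filter fun y => C.color (C.nonempty a).choose y = a).card

/-- The number `√(k_c / (k_a k_b)) p^c_{ab}`. -/
noncomputable def nabla (c a b : S) : ℝ :=
  √((C.valency c : ℝ) / (C.valency a * C.valency b)) * C.inter a b c

/-- The matrix `O`. -/
noncomputable def O [Fintype S] : Matrix S S ℝ :=
  Matrix.of fun a b => ∑ p, ∑ q, C.nabla a p q * C.nabla b p q

/-- The transposed color. -/
noncomputable def tr (a : S) : S :=
  C.color (C.nonempty a).choose_spec.choose (C.nonempty a).choose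

theorem tr_color (x y : X) : C.tr (C.color x y) = C.color y x :=
  C.transpose _ _ _ _ (C.nonempty (C.color x y)).choose_spec.choose_spec

theorem tr_tr (a : S) : C.tr (C.tr a) = a := by
  obtain ⟨x, y, rfl⟩ := C.nonempty a
  rw [tr_color, tr_color]

theorem color_eq_tr {x y : X} {a : S} : C.color y x = C.tr a ↔ C.color x y = a := by
  constructor
  · intro h
    rw [← tr_color, h, tr_tr]
  · rintro rfl
    rw [tr_color]

/-- The number of `y` with `(x, y)` in `a`. -/
def deg (x : X) (a : S) : ℕ := (univ.filter fun y => C.color x y = a).card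

theorem deg_eq (x : X) (a : S) : C.deg x a = C.inter a (C.tr a) (C.color x x) := by
  rw [← C.inter_spec, deg]
  congr 1
  ext z
  simp only [mem_filter, mem_univ, true_and]
  exact ⟨fun h => ⟨h, by rw [← h, tr_color]⟩, fun h => h.1⟩

theorem color_self {x y x' y' : X} (h : C.color x' y' = C.color x y) :
    C.color x' x' = C.color x x := by
  have h1 : 0 < (univ.filter fun z => C.color x z = C.color x x ∧ C.color z y = C.color x y).card :=
    card_pos.2 ⟨x, by simp⟩
  rw [C.inter_spec, ← h, ← C.inter_spec, card_pos] at h1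
  obtain ⟨z, hz⟩ := h1
  simp only [mem_filter, mem_univ, true_and] at hz
  have := C.diagonal _ _ _ hz.1
  subst this
  exact hz.1

theorem deg_eq_valency (x y : X) : C.deg x (C.color x y) = C.valency (C.color x y) := by
  obtain ⟨y', hy'⟩ := (C.nonempty (C.color x y)).choose_spec
  have h := C.color_self hy'
  rw [valency, ← deg, deg_eq, deg_eq, h]

theorem valency_pos (a : S) : 0 < C.valency a := by
  obtain ⟨x, y, rfl⟩ := C.nonempty a
  rw [← deg_eq_valency, deg, card_pos]
  exact ⟨y, by simp⟩

/-- The size of the fiber of `x`. -/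
def fib (x : X) : ℕ := (univ.filter fun x' => C.color x' x' = C.color x x).card

theorem fib_pos (x : X) : 0 < C.fib x := card_pos.2 ⟨x, by simp⟩

/-- The number of pairs of the color `a`. -/
def pairs (a : S) : ℕ := (univ.filter fun xy : X × X => C.color xy.1 xy.2 = a).card

theorem pairs_eq_sum (a : S) : C.pairs a = ∑ x, C.deg x a := by
  classical
  rw [pairs, card_filter, Fintype.sum_prod_type]
  refine sum_congr rfl fun x _ => ?_
  rw [deg, card_filter]

theorem pairs_eq (x y : X) : C.pairs (C.color x y) = C.fib x * C.valency (C.color x y) := by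
  classical
  rw [pairs_eq_sum, fib, ← smul_eq_mul, ← sum_const, sum_filter]
  refine sum_congr rfl fun x' _ => ?_
  split_ifs with h
  · rw [← deg_eq_valency, deg_eq, deg_eq, h]
  · rw [deg, card_eq_zero]
    ext y'
    simp only [mem_filter, mem_univ, true_and, notMem_empty, iff_false]
    intro h'
    exact h (C.color_self h')

theorem pairs_pos (a : S) : 0 < C.pairs a := by
  obtain ⟨x, y, rfl⟩ := C.nonempty a
  rw [pairs_eq]
  exact Nat.mul_pos (C.fib_pos x) (C.valency_pos _)

theorem pairs_tr (a : S) : C.pairs (C.tr a) = C.pairs a := by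
  rw [pairs, pairs]
  refine card_bij (fun xy _ => (xy.2, xy.1)) ?_ ?_ ?_
  · intro xy h
    simp only [mem_filter, mem_univ, true_and] at h ⊢
    exact C.color_eq_tr.1 h
  · rintro ⟨a, b⟩ _ ⟨c, d⟩ _ h
    simp only [Prod.mk.injEq] at h ⊢
    exact ⟨h.2, h.1⟩
  · rintro ⟨x, y⟩ h
    simp only [mem_filter, mem_univ, true_and] at h
    exact ⟨(y, x), by simp [C.color_eq_tr, h], rfl⟩

/-- Double counting of triangles. -/
theorem inter_mul_pairs (p q a : S) :
    C.inter p q a * C.pairs a = C.inter (C.tr p) a q * C.pairs q := by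
  classical
  have h1 : C.inter p q a * C.pairs a = ∑ x, ∑ z, ∑ y,
      if C.color x y = p ∧ C.color y z = q ∧ C.color x z = a then 1 else 0 := by
    rw [pairs, card_filter, Fintype.sum_prod_type, mul_sum]
    refine sum_congr rfl fun x _ => ?_
    rw [mul_sum]
    refine sum_congr rfl fun z _ => ?_
    by_cases h : C.color x z = a
    · subst h
      simp only [if_true, mul_one, and_true]
      rw [← C.inter_spec, card_filter]
    · simp [h]
  have h2 : C.inter (C.tr p) a q * C.pairs q = ∑ y, ∑ z, ∑ x,
      if C.color x y = p ∧ C.color y z = q ∧ C.color x z = a then 1 else 0 := by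
    rw [pairs, card_filter, Fintype.sum_prod_type, mul_sum]
    refine sum_congr rfl fun y _ => ?_
    rw [mul_sum]
    refine sum_congr rfl fun z _ => ?_
    by_cases h : C.color y z = q
    · subst h
      simp only [if_true, mul_one, true_and]
      rw [← C.inter_spec, card_filter]
      simp only [color_eq_tr]
    · simp [h]
  rw [h1, h2]
  calc ∑ x, ∑ z, ∑ y, (if C.color x y = p ∧ C.color y z = q ∧ C.color x z = a then 1 else 0)
      = ∑ x, ∑ y, ∑ z, (if C.color x y = p ∧ C.color y z = q ∧ C.color x z = a then 1 else 0) :=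
        sum_congr rfl fun x _ => sum_comm
    _ = ∑ y, ∑ x, ∑ z, (if C.color x y = p ∧ C.color y z = q ∧ C.color x z = a then 1 else 0) :=
        sum_comm
    _ = _ := sum_congr rfl fun y _ => sum_comm

/-- The entries of the auxiliary matrix. -/
noncomputable def ent (Y : S → ℝ) (x z : X) : ℝ :=
  Y (C.color x z) / √(C.pairs (C.color x z))

/-- The partial column sums. -/
noncomputable def part (Y : S → ℝ) (p : S) (y z : X) : ℝ :=
  ∑ x with C.color x y = p, C.ent Y x z

/-- The bilinear expression. -/
noncomputable def T [Fintype S] (Y : S → ℝ) (p q : S) : ℝ :=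
  ∑ a, Y a * √(C.valency a) * C.inter p q a

theorem sq_sqrt_pairs (a : S) : √(C.pairs a : ℝ) * √(C.pairs a) = C.pairs a :=
  Real.mul_self_sqrt (Nat.cast_nonneg _)

theorem sqrt_pairs_pos (a : S) : 0 < √(C.pairs a : ℝ) :=
  Real.sqrt_pos.2 (Nat.cast_pos.2 (C.pairs_pos a))

theorem part_eq [Fintype S] (Y : S → ℝ) (p : S) (y z : X) :
    C.pairs (C.color y z) * C.part Y p y z =
      ∑ a, Y a * √(C.pairs a) * C.inter p (C.color y z) a := by
  rw [part, ← sum_fiberwise (s := univ.filter fun x => C.color x y = p) (fun x => C.color x z),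
    mul_sum]
  refine sum_congr rfl fun a _ => ?_
  have h1 : ∑ x ∈ univ.filter (fun x => C.color x y = p) with C.color x z = a, C.ent Y x z =
      C.inter (C.tr p) a (C.color y z) * (Y a / √(C.pairs a)) := by
    rw [← C.inter_spec, ← nsmul_eq_mul, ← sum_const, filter_filter]
    refine sum_congr ?_ ?_
    · ext x
      simp [color_eq_tr]
    · intro x hx
      simp only [mem_filter, mem_univ, true_and] at hx
      rw [ent, hx.2]
  have h2 : (C.inter p (C.color y z) a : ℝ) * C.pairs a =
      C.inter (C.tr p) a (C.color y z) * C.pairs (C.color y z) := by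
    exact_mod_cast C.inter_mul_pairs p (C.color y z) a
  have h3 := C.sqrt_pairs_pos a
  rw [h1]
  have h4 : (C.pairs (C.color y z) : ℝ) * (C.inter (C.tr p) a (C.color y z) *
      (Y a / √(C.pairs a))) = (C.inter p (C.color y z) a * C.pairs a) * (Y a / √(C.pairs a)) := by
    rw [h2]
    ring
  have h5 : (C.pairs a : ℝ) * (Y a / √(C.pairs a)) = Y a * √(C.pairs a) := by
    rw [mul_div_assoc', div_eq_iff h3.ne', mul_assoc, sq_sqrt_pairs, mul_comm]
  rw [h4, mul_assoc, h5]
  ring

/-- The contribution of a pair. -/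
theorem contribution [Fintype S] (Y : S → ℝ) (p : S) (y z : X) :
    C.part Y p y z ^ 2 / C.valency (C.tr p) =
      C.T Y p (C.color y z) ^ 2 / (C.valency p * C.valency (C.color y z)) /
        C.pairs (C.color y z) := by
  set q := C.color y z with hq
  by_cases hex : ∃ x, C.color x y = p
  · obtain ⟨x, hx⟩ := hex
    -- the sizes of the color classes
    have hNp : C.pairs p = C.fib x * C.valency p := by rw [← hx, pairs_eq]
    have hNp' : C.pairs p = C.fib y * C.valency (C.tr p) := by
      rw [← C.pairs_tr, ← hx, tr_color, pairs_eq]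
    have hNq : C.pairs q = C.fib y * C.valency q := by rw [hq, pairs_eq]
    have hpart : C.pairs q * C.part Y p y z = √(C.fib x) * C.T Y p q := by
      rw [hq, part_eq, T, mul_sum]
      refine sum_congr rfl fun a _ => ?_
      by_cases ha : C.inter p (C.color y z) a = 0
      · rw [ha]
        simp
      · -- the source of `a` is in the fiber of `x`
        have : C.pairs a = C.fib x * C.valency a := by
          obtain ⟨x', z', rfl⟩ := C.nonempty a
          rw [← C.inter_spec, ← Ne, card_ne_zero] at ha
          obtain ⟨y', hy'⟩ := ha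
          simp only [mem_filter, mem_univ, true_and] at hy'
          rw [pairs_eq, fib, fib, C.color_self (hy'.1.trans hx.symm)]
        rw [this]
        push_cast
        rw [Real.sqrt_mul (Nat.cast_nonneg _)]
        ring
    have f1 : (0 : ℝ) < C.fib x := Nat.cast_pos.2 (C.fib_pos x)
    have f2 : (0 : ℝ) < C.fib y := Nat.cast_pos.2 (C.fib_pos y)
    have f3 : (0 : ℝ) < C.valency p := Nat.cast_pos.2 (C.valency_pos p)
    have f4 : (0 : ℝ) < C.valency q := Nat.cast_pos.2 (C.valency_pos q)
    have f5 : (0 : ℝ) < C.valency (C.tr p) := Nat.cast_pos.2 (C.valency_pos _)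
    have g1 : (C.fib x : ℝ) * C.valency p = C.fib y * C.valency (C.tr p) := by
      exact_mod_cast hNp.symm.trans hNp'
    have g2 : (C.pairs q : ℝ) = C.fib y * C.valency q := by exact_mod_cast hNq
    have f6 : (0 : ℝ) < C.pairs q := by rw [g2]; positivity
    have g3 : (C.pairs q : ℝ) ^ 2 * C.part Y p y z ^ 2 = C.fib x * C.T Y p q ^ 2 := by
      have := congrArg (fun t => t ^ 2) hpart
      simp only [mul_pow] at this
      rw [this, Real.sq_sqrt f1.le]
    rw [div_div, div_eq_div_iff f5.ne' (by positivity)]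
    have g4 : (C.pairs q : ℝ) ^ 2 * (C.part Y p y z ^ 2 * (C.valency p * C.valency q * C.pairs q)) =
        (C.pairs q : ℝ) ^ 2 * (C.T Y p q ^ 2 * C.valency (C.tr p)) := by
      calc (C.pairs q : ℝ) ^ 2 * (C.part Y p y z ^ 2 * (C.valency p * C.valency q * C.pairs q))
          = ((C.pairs q : ℝ) ^ 2 * C.part Y p y z ^ 2) * C.valency p * C.valency q * C.pairs q := by
            ring
        _ = (C.fib x * C.valency p) * C.T Y p q ^ 2 * C.valency q * C.pairs q := by
            rw [g3]
            ring
        _ = (C.fib y * C.valency q) * C.valency (C.tr p) * C.T Y p q ^ 2 * C.pairs q := by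
            rw [g1]
            ring
        _ = _ := by
            rw [← g2]
            ring
    exact mul_left_cancel₀ (by positivity) g4
  · have h0 : C.part Y p y z = 0 := by
      rw [part]
      refine sum_eq_zero fun x hx => ?_
      simp only [mem_filter, mem_univ, true_and] at hx
      exact absurd ⟨x, hx⟩ hex
    have h1 : C.T Y p q = 0 := by
      rw [T]
      refine sum_eq_zero fun a _ => ?_
      have : C.inter p q a = 0 := by
        obtain ⟨x', z', rfl⟩ := C.nonempty a
        rw [← C.inter_spec, card_eq_zero]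
        ext y'
        simp only [mem_filter, mem_univ, true_and, notMem_empty, iff_false]
        rintro ⟨h2, h3⟩
        -- `y` and `y'` are in the same fiber
        have h4 : C.color y' y' = C.color y y := C.color_self h3
        have h5 : 0 < C.deg y (C.tr p) := by
          rw [deg_eq, ← h4, ← deg_eq, deg, card_pos]
          exact ⟨x', by simp [color_eq_tr, h2]⟩
        rw [deg, card_pos] at h5
        obtain ⟨x, hx⟩ := h5
        simp only [mem_filter, mem_univ, true_and, color_eq_tr] at hx
        exact hex ⟨x, hx⟩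
      rw [this]
      simp
    rw [h0, h1]
    simp

theorem dot_O [Fintype S] (Y : S → ℝ) : Y ⬝ᵥ (C.O.mulVec Y) =
    ∑ p, ∑ q, C.T Y p q ^ 2 / (C.valency p * C.valency q) := by
  have h1 : ∀ p q, C.T Y p q ^ 2 / (C.valency p * C.valency q) =
      ∑ a, ∑ b, Y a * (C.nabla a p q * C.nabla b p q) * Y b := by
    intro p q
    have f3 : (0 : ℝ) < C.valency p := Nat.cast_pos.2 (C.valency_pos p)
    have f4 : (0 : ℝ) < C.valency q := Nat.cast_pos.2 (C.valency_pos q)
    have h2 : C.T Y p q = √(C.valency p * C.valency q) * ∑ a, Y a * C.nabla a p q := by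
      rw [T, mul_sum]
      refine sum_congr rfl fun a _ => ?_
      rw [nabla, Real.sqrt_div (Nat.cast_nonneg _)]
      have : √((C.valency p : ℝ) * C.valency q) ≠ 0 := by positivity
      field_simp
    rw [h2, mul_pow, Real.sq_sqrt (by positivity), mul_div_assoc, mul_comm, div_mul_cancel₀ _
      (by positivity), sq, sum_mul_sum]
    refine sum_congr rfl fun a _ => sum_congr rfl fun b _ => ?_
    ring
  simp only [h1]
  rw [dotProduct]
  calc ∑ a, Y a * C.O.mulVec Y a
      = ∑ a, ∑ b, ∑ p, ∑ q, Y a * (C.nabla a p q * C.nabla b p q) * Y b := by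
        refine sum_congr rfl fun a _ => ?_
        rw [Matrix.mulVec, dotProduct, mul_sum]
        refine sum_congr rfl fun b _ => ?_
        rw [O, Matrix.of_apply, sum_mul, mul_sum]
        refine sum_congr rfl fun p _ => ?_
        rw [sum_mul, mul_sum]
        refine sum_congr rfl fun q _ => ?_
        ring
    _ = ∑ a, ∑ p, ∑ b, ∑ q, Y a * (C.nabla a p q * C.nabla b p q) * Y b :=
        sum_congr rfl fun a _ => sum_comm
    _ = ∑ p, ∑ a, ∑ b, ∑ q, Y a * (C.nabla a p q * C.nabla b p q) * Y b := sum_comm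
    _ = ∑ p, ∑ a, ∑ q, ∑ b, Y a * (C.nabla a p q * C.nabla b p q) * Y b :=
        sum_congr rfl fun p _ => sum_congr rfl fun a _ => sum_comm
    _ = ∑ p, ∑ q, ∑ a, ∑ b, Y a * (C.nabla a p q * C.nabla b p q) * Y b :=
        sum_congr rfl fun p _ => sum_comm

theorem dot_O_eq [Fintype S] (Y : S → ℝ) : Y ⬝ᵥ (C.O.mulVec Y) =
    ∑ z, ∑ y, ∑ p, C.part Y p y z ^ 2 / C.valency (C.tr p) := by
  rw [dot_O]
  have h1 : ∀ p q, C.T Y p q ^ 2 / (C.valency p * C.valency q) =
      ∑ yz : X × X, if C.color yz.1 yz.2 = q then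
        C.part Y p yz.1 yz.2 ^ 2 / C.valency (C.tr p) else 0 := by
    intro p q
    rw [← sum_filter]
    have : ∀ yz ∈ univ.filter (fun yz : X × X => C.color yz.1 yz.2 = q),
        C.part Y p yz.1 yz.2 ^ 2 / C.valency (C.tr p) =
          C.T Y p q ^ 2 / (C.valency p * C.valency q) / C.pairs q := by
      intro yz hyz
      simp only [mem_filter, mem_univ, true_and] at hyz
      rw [contribution, hyz]
    rw [sum_congr rfl this, sum_const, nsmul_eq_mul, ← pairs, mul_div_cancel₀]
    exact (Nat.cast_pos.2 (C.pairs_pos q)).ne'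
  simp only [h1]
  calc ∑ p, ∑ q, ∑ yz : X × X, (if C.color yz.1 yz.2 = q then
        C.part Y p yz.1 yz.2 ^ 2 / C.valency (C.tr p) else 0)
      = ∑ p, ∑ yz : X × X, ∑ q, (if C.color yz.1 yz.2 = q then
        (C.part Y p yz.1 yz.2 ^ 2 / C.valency (C.tr p) : ℝ) else 0) :=
        sum_congr rfl fun p _ => sum_comm
    _ = ∑ p, ∑ yz : X × X, C.part Y p yz.1 yz.2 ^ 2 / C.valency (C.tr p) := by
        refine sum_congr rfl fun p _ => sum_congr rfl fun yz _ => ?_
        rw [sum_ite_eq]
        simp
    _ = ∑ yz : X × X, ∑ p, C.part Y p yz.1 yz.2 ^ 2 / C.valency (C.tr p) := sum_comm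
    _ = ∑ y, ∑ z, ∑ p, C.part Y p y z ^ 2 / C.valency (C.tr p) := by
        rw [Fintype.sum_prod_type]
    _ = _ := sum_comm

theorem sum_ent_sq [Fintype S] (Y : S → ℝ) : ∑ z, ∑ x, C.ent Y x z ^ 2 = Y ⬝ᵥ Y := by
  rw [sum_comm, ← Fintype.sum_prod_type' (f := fun x z => C.ent Y x z ^ 2),
    ← sum_fiberwise (s := univ) (fun xz : X × X => C.color xz.1 xz.2), dotProduct]
  refine sum_congr rfl fun a _ => ?_
  have : ∀ xz ∈ univ.filter (fun xz : X × X => C.color xz.1 xz.2 = a),
      C.ent Y xz.1 xz.2 ^ 2 = Y a * Y a / C.pairs a := by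
    intro xz hxz
    simp only [mem_filter, mem_univ, true_and] at hxz
    rw [ent, hxz, div_pow, Real.sq_sqrt (Nat.cast_nonneg _), sq]
  rw [sum_congr rfl this, sum_const, nsmul_eq_mul, ← pairs, mul_div_cancel₀]
  exact (Nat.cast_pos.2 (C.pairs_pos a)).ne'

/-- The Cauchy-Schwarz inequality for one pair. -/
theorem pair_bound [Fintype S] [DecidableEq X] (Y : S → ℝ) (y z : X) (hn : 2 ≤ Fintype.card X) :
    C.ent Y y z ^ 2 + ((∑ x, C.ent Y x z) - C.ent Y y z) ^ 2 / ((Fintype.card X : ℝ) - 1) ≤
      ∑ p, C.part Y p y z ^ 2 / C.valency (C.tr p) := by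
  set s := (univ.erase y).image (fun x => C.color x y) with hs
  have hp0 : C.color y y ∉ s := by
    rw [hs, mem_image]
    rintro ⟨x, hx, hxy⟩
    exact (mem_erase.1 hx).1 (C.diagonal _ _ _ hxy)
  have hw : ∀ p, p ∈ s → (C.valency (C.tr p) : ℝ) =
      ((univ.erase y).filter (fun x => C.color x y = p)).card := by
    intro p hp
    rw [hs, mem_image] at hp
    obtain ⟨x, hx, rfl⟩ := hp
    rw [tr_color, ← deg_eq_valency, deg]
    congr 2
    ext x'
    simp only [mem_filter, mem_univ, true_and, mem_erase, and_true]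
    constructor
    · intro h
      refine ⟨?_, ?_⟩
      · rintro rfl
        exact (mem_erase.1 hx).1 (C.diagonal _ _ _ h.symm).symm
      · rw [← tr_color, h, tr_color]
    · intro h
      rw [← tr_color, h.2, tr_color]
  have hsumw : ∑ p ∈ s, (C.valency (C.tr p) : ℝ) = (Fintype.card X : ℝ) - 1 := by
    rw [sum_congr rfl hw, ← Nat.cast_sum, ← card_eq_sum_card_image, card_erase_of_mem (mem_univ y),
      card_univ, Nat.cast_sub (by omega)]
    simp
  have hsumR : ∑ p ∈ s, C.part Y p y z = (∑ x, C.ent Y x z) - C.ent Y y z := by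
    have h1 : ∀ p ∈ s, C.part Y p y z =
        ∑ x ∈ univ.erase y with C.color x y = p, C.ent Y x z := by
      intro p hp
      rw [part]
      refine sum_congr ?_ fun _ _ => rfl
      ext x'
      simp only [mem_filter, mem_univ, true_and, mem_erase, and_true]
      refine ⟨fun h => ⟨?_, h⟩, fun h => h.2⟩
      rintro rfl
      exact hp0 (h ▸ hp)
    rw [sum_congr rfl h1, sum_fiberwise_of_maps_to (fun x hx => mem_image_of_mem _ hx),
      ← sum_erase_eq_sub (mem_univ y)]
  have hpos : ∀ p ∈ s, (0 : ℝ) < C.valency (C.tr p) :=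
    fun p _ => Nat.cast_pos.2 (C.valency_pos _)
  have hT := sq_sum_div_le_sum_sq_div s (fun p => C.part Y p y z) hpos
  rw [hsumw, hsumR] at hT
  have h0 : C.part Y (C.color y y) y z ^ 2 / C.valency (C.tr (C.color y y)) =
      C.ent Y y z ^ 2 := by
    have h1 : C.part Y (C.color y y) y z = C.ent Y y z := by
      rw [part]
      have : (univ.filter fun x => C.color x y = C.color y y) = {y} := by
        ext x
        simp only [mem_filter, mem_univ, true_and, mem_singleton]
        exact ⟨fun h => C.diagonal _ _ _ h, fun h => by rw [h]⟩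
      rw [this, sum_singleton]
    have h2 : C.valency (C.tr (C.color y y)) = 1 := by
      rw [tr_color, ← deg_eq_valency, deg, card_eq_one]
      refine ⟨y, ?_⟩
      ext x
      simp only [mem_filter, mem_univ, true_and, mem_singleton]
      exact ⟨fun h => (C.diagonal _ _ _ h).symm, fun h => by rw [h]⟩
    rw [h1, h2]
    simp
  calc C.ent Y y z ^ 2 + ((∑ x, C.ent Y x z) - C.ent Y y z) ^ 2 / ((Fintype.card X : ℝ) - 1)
      ≤ C.part Y (C.color y y) y z ^ 2 / C.valency (C.tr (C.color y y)) +
        ∑ p ∈ s, C.part Y p y z ^ 2 / C.valency (C.tr p) := by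
        rw [h0]
        linarith
    _ = ∑ p ∈ insert (C.color y y) s, C.part Y p y z ^ 2 / C.valency (C.tr p) := by
        rw [sum_insert hp0]
    _ ≤ _ := sum_le_sum_of_subset_of_nonneg (subset_univ _) fun _ _ _ => by positivity

theorem quadratic_bound [Fintype S] (Y : S → ℝ) (hn : 2 ≤ Fintype.card X) :
    (Fintype.card X : ℝ) / ((Fintype.card X : ℝ) - 1) * (Y ⬝ᵥ Y) ≤ Y ⬝ᵥ (C.O.mulVec Y) := by
  classical
  rw [dot_O_eq, ← C.sum_ent_sq, mul_sum]
  refine sum_le_sum fun z _ => ?_
  set n : ℝ := (Fintype.card X : ℝ) with hndef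
  have hn2 : (2 : ℝ) ≤ n := by
    rw [hndef]
    exact_mod_cast hn
  have h1 : ∑ y, (C.ent Y y z ^ 2 + ((∑ x, C.ent Y x z) - C.ent Y y z) ^ 2 / (n - 1)) ≤
      ∑ y, ∑ p, C.part Y p y z ^ 2 / C.valency (C.tr p) :=
    sum_le_sum fun y _ => C.pair_bound Y y z hn
  refine le_trans ?_ h1
  set W := ∑ x, C.ent Y x z with hW
  have h2 : ∑ y, (W - C.ent Y y z) ^ 2 = (n - 2) * W ^ 2 + ∑ y, C.ent Y y z ^ 2 := by
    have : ∀ y, (W - C.ent Y y z) ^ 2 = W ^ 2 - 2 * W * C.ent Y y z + C.ent Y y z ^ 2 :=
      fun y => by ring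
    simp only [this, sum_add_distrib, sum_sub_distrib, ← mul_sum, ← hW, sum_const, card_univ,
      nsmul_eq_mul, ← hndef]
    ring
  rw [sum_add_distrib, ← sum_div, h2]
  have hn1 : 0 < n - 1 := by linarith
  have h3 : 0 ≤ (n - 2) * W ^ 2 / (n - 1) := by
    apply div_nonneg _ hn1.le
    exact mul_nonneg (by linarith) (sq_nonneg _)
  have h4 : n / (n - 1) * ∑ y, C.ent Y y z ^ 2 =
      ∑ y, C.ent Y y z ^ 2 + (∑ y, C.ent Y y z ^ 2) / (n - 1) := by
    field_simp
    ring
  rw [h4, add_div]
  linarith

end CoherentConfiguration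

/-- **Every eigenvalue of the matrix `O` of a coherent configuration on `n ≥ 2` points is at least
`n / (n - 1)`.** -/
theorem result {X S : Type*} [Fintype X] [Fintype S] [DecidableEq S]
    (C : CoherentConfiguration X S) (hn : 2 ≤ Fintype.card X) :
    ∀ μ ∈ spectrum ℝ C.O, (Fintype.card X : ℝ) / ((Fintype.card X : ℝ) - 1) ≤ μ := by
  intro μ hμ
  rw [← Matrix.spectrum_toLin', ← Module.End.hasEigenvalue_iff_mem_spectrum] at hμ
  obtain ⟨Y, hY, hY0⟩ := hμ.exists_hasEigenvector
  rw [Module.End.mem_eigenspace_iff, Matrix.toLin'_apply] at hY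
  have h := C.quadratic_bound Y hn
  rw [hY, dotProduct_smul, smul_eq_mul] at h
  have hpos : 0 < Y ⬝ᵥ Y := by
    rw [dotProduct]
    obtain ⟨a, ha⟩ := Function.ne_iff.1 hY0
    exact sum_pos' (fun _ _ => mul_self_nonneg _) ⟨a, mem_univ _, mul_self_pos.2 ha⟩
  exact le_of_mul_le_mul_right h hpos

end Pool.Agent.Results.MP_d5c33c_co.LowerBound
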